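import Pool.Agent.Helper84.RS.KUM
import Pool.Agent.Helper38.RSP.Goals3

/-!
# Project RSP, packet SP_KUM: the primes at which a non-`p`-th power is locally a `p`-th power
-/

set_option autoImplicit false

namespace Pool.Agent.Helper84.RSP

open NumberField Module IsDedekindDomain Polynomial
open Pool.Agent.Helper38.RS (pz)
open Pool.Agent.Helper38.RSP Pool.Agent.Helper51.RP

theorem exists_ext (p : ℕ) (hp : p.Prime) (F : Type) [Field F] [NumberField F] (x : F)
    (hx : ¬ ∃ z : F, z ^ p = x) :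
    ∃ (E : Type) (_ : Field E) (_ : NumberField E) (_ : Algebra F E) (r : E),
      finrank F E = p ∧ r ^ p = algebraMap F E x := by
  have hirr : Irreducible (X ^ p - C x : F[X]) :=
    X_pow_sub_C_irreducible_of_prime hp (fun b hb => hx ⟨b, hb⟩)
  have hfact : Fact (Irreducible (X ^ p - C x : F[X])) := ⟨hirr⟩
  let E := AdjoinRoot (X ^ p - C x : F[X])
  have hne : (X ^ p - C x : F[X]) ≠ 0 := hirr.ne_zero
  have hfin : finrank F E = p := by
    have h := (AdjoinRoot.powerBasis hne).finrank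
    rw [AdjoinRoot.powerBasis_dim, natDegree_X_pow_sub_C] at h
    exact h
  have hFE : FiniteDimensional F E := (AdjoinRoot.powerBasis hne).finite
  have hc : CharZero E := charZero_of_injective_algebraMap (algebraMap F E).injective
  have hQ : FiniteDimensional ℚ E := FiniteDimensional.trans ℚ F E
  have hN : NumberField E := { to_charZero := hc, to_finiteDimensional := hQ }
  refine ⟨E, inferInstance, hN, inferInstance, AdjoinRoot.root _, hfin, ?_⟩
  have h := AdjoinRoot.eval₂_root (X ^ p - C x : F[X])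
  rw [eval₂_sub, eval₂_pow, eval₂_X, eval₂_C, sub_eq_zero] at h
  exact h

theorem count (F E : Type) [Field F] [NumberField F] [Field E] [NumberField E]
    [Algebra F E] (p : ℕ) (A : Set (HeightOneSpectrum (𝓞 F)))
    (hA : ∀ v ∈ A, ∃ w : Fin p → HeightOneSpectrum (𝓞 E), Function.Injective w ∧
      ∀ i, (w i).asIdeal.comap (algebraMap (𝓞 F) (𝓞 E)) = v.asIdeal ∧
        Ideal.absNorm (w i).asIdeal = Ideal.absNorm v.asIdeal)
    (s : ℝ) (hs : 1 < s) : (p : ℝ) * pz A s ≤ pz (Set.univ : Set (HeightOneSpectrum (𝓞 E))) s := by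
  have hch : ∀ v : A, ∃ w : Fin p → HeightOneSpectrum (𝓞 E), Function.Injective w ∧
      ∀ i, (w i).asIdeal.comap (algebraMap (𝓞 F) (𝓞 E)) = v.1.asIdeal ∧
        Ideal.absNorm (w i).asIdeal = Ideal.absNorm v.1.asIdeal := fun v => hA v.1 v.2
  choose w hw hc using hch
  let B : Set (HeightOneSpectrum (𝓞 E)) := Set.univ
  let e : (Σ _ : Fin p, A) → B := fun a => ⟨w a.2 a.1, Set.mem_univ _⟩
  have hinj : Function.Injective e := by
    rintro ⟨i, a⟩ ⟨j, b⟩ hab
    have h : w a i = w b j := congrArg Subtype.val hab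
    have h1 : a.1.asIdeal = b.1.asIdeal := by rw [← (hc a i).1, ← (hc b j).1, h]
    have h3 : a = b := Subtype.ext (HeightOneSpectrum.ext h1)
    subst h3
    have h4 : i = j := hw a h
    subst h4
    rfl
  have hsA : Summable (fun v : A => (Ideal.absNorm v.1.asIdeal : ℝ) ^ (-s)) :=
    (Helper84.RS.summable_norm F s hs).subtype A
  have hsB : Summable (fun v : B => (Ideal.absNorm v.1.asIdeal : ℝ) ^ (-s)) :=
    (Helper84.RS.summable_norm E s hs).subtype B
  let f : (Σ _ : Fin p, A) → ℝ := fun a => (Ideal.absNorm a.2.1.asIdeal : ℝ) ^ (-s)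
  have hf : HasSum f ((p : ℝ) * pz A s) := by
    have h1 : HasSum (fun _ : Fin p => pz A s) ((p : ℝ) * pz A s) := by
      have h2 := hasSum_fintype (fun _ : Fin p => pz A s)
      rw [Finset.sum_const, Finset.card_univ, Fintype.card_fin, nsmul_eq_mul] at h2
      exact h2
    have hfs : Summable f := (summable_sigma_of_nonneg (fun a => by positivity)).mpr
      ⟨fun _ => hsA, (hasSum_fintype _).summable⟩
    have h3 : ∑' a, f a = (p : ℝ) * pz A s := (hfs.hasSum.sigma (fun i => hsA.hasSum)).unique h1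
    rw [← h3]
    exact hfs.hasSum
  have hle : ∑' a, f a ≤ pz B s := by
    unfold pz
    apply Summable.tsum_le_tsum_of_inj e hinj
    · intro b _
      positivity
    · intro a
      show (Ideal.absNorm a.2.1.asIdeal : ℝ) ^ (-s) ≤ (Ideal.absNorm (w a.2 a.1).asIdeal : ℝ) ^ (-s)
      rw [(hc a.2 a.1).2]
    · exact hf.summable
    · exact hsB
  rw [hf.tsum_eq] at hle
  exact hle

/-- Packet SP_KUM. -/
theorem sp_kum (h1 : SP_SPL) (h2 : Pool.Agent.Helper38.RS.S_PSM) :
    Pool.Agent.Helper38.RSP.SP_KUM := by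
  intro p hpf F _ _ ε x hε hx0 hx
  have hp : p.Prime := hpf.out
  obtain ⟨E, _, _, _, r, hE, hr⟩ := exists_ext p hp F x hx
  obtain ⟨C, hC⟩ := h2 E
  have hp0 : (0 : ℝ) < (p : ℝ) := by exact_mod_cast hp.pos
  refine ⟨C / p, fun s hs1 hs2 => ?_⟩
  have hA := count F E p {v : HeightOneSpectrum (𝓞 F) | v.valuation F (p : F) = 1 ∧ LocPow p v x}
    (fun v hv => h1 p F E ε x r hε hE hr hx v hv.1 hv.2) s hs1
  have hD := (abs_le.mp (hC s hs1 hs2)).2
  have hfin : (p : ℝ) * pz {v : HeightOneSpectrum (𝓞 F) | v.valuation F (p : F) = 1 ∧ LocPow p v x} s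
      ≤ Real.log (1 / (s - 1)) + C := by linarith
  rw [show 1 / (p : ℝ) * Real.log (1 / (s - 1)) + C / p = (Real.log (1 / (s - 1)) + C) / p by ring,
    le_div_iff₀ hp0, mul_comm]
  exact hfin

end Pool.Agent.Helper84.RSP
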