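import Pool.Agent.Helper38.RSP.Goals3
import Mathlib.NumberTheory.RamificationInertia.Valuation
import Mathlib.NumberTheory.RamificationInertia.Galois
import Mathlib.FieldTheory.KummerExtension

/-!
# Project RSP, packet SP_SPL: splitting in a Kummer extension of prime degree
-/

set_option autoImplicit false

namespace Pool.Agent.Helper84.RSP

open NumberField Module IsDedekindDomain Polynomial
open Pool.Agent.Helper38.RSP Pool.Agent.Helper51.RP
open scoped Pointwise IntermediateField

theorem exists_sigma {F E : Type} [Field F] [Field E] [Algebra F E] [FiniteDimensional F E]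
    (p : ℕ) (hp : p.Prime) (ε x : F) (r : E) (hε : IsPrimitiveRoot ε p) (hfin : finrank F E = p)
    (hr : r ^ p = algebraMap F E x) (hx : ¬ ∃ y : F, y ^ p = x) :
    IsGalois F E ∧ ∃ g : Gal(E/F), g r = algebraMap F E ε * r := by
  subst hfin
  have hirr : Irreducible (X ^ (finrank F E) - C x : F[X]) :=
    X_pow_sub_C_irreducible_of_prime hp (fun b hb => hx ⟨b, hb⟩)
  have hmin : minpoly F r = X ^ (finrank F E) - C x := by
    symm
    apply minpoly.eq_of_irreducible_of_monic hirr
    · simp [hr]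
    · exact monic_X_pow_sub_C x hp.ne_zero
  have htop : F⟮r⟯ = ⊤ := by
    rw [Field.primitive_element_iff_minpoly_natDegree_eq, hmin, natDegree_X_pow_sub_C]
  have hK : (primitiveRoots (finrank F E) F).Nonempty :=
    ⟨ε, (mem_primitiveRoots hp.pos).mpr hε⟩
  have hsp : IsSplittingField F E (X ^ (finrank F E) - C x) :=
    isSplittingField_X_pow_sub_C_of_root_adjoin_eq_top hK hr htop
  have hG : IsGalois F E := isGalois_of_isSplittingField_X_pow_sub_C hK hirr E
  refine ⟨hG, ?_⟩
  have hev : aeval (algebraMap F E ε * r) (minpoly F r) = 0 := by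
    rw [hmin]
    simp only [map_sub, map_pow, aeval_X, aeval_C]
    rw [mul_pow, hr, ← map_pow, hε.pow_eq_one, map_one, one_mul, sub_self]
  exact minpoly.exists_algEquiv_of_root' (Algebra.IsAlgebraic.isAlgebraic r) hev

/-- `p` distinct primes above `v` in an extension of degree `p`: the norms are that of `v`. -/
theorem norm_part {F E : Type} [Field F] [NumberField F] [Field E] [NumberField E] [Algebra F E]
    (p : ℕ) (hfin : finrank F E = p) (v : HeightOneSpectrum (𝓞 F)) (Q : Fin p → Ideal (𝓞 E))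
    (hprime : ∀ i, (Q i).IsPrime) (hover : ∀ i, (Q i).LiesOver v.asIdeal)
    (hinj : Function.Injective Q) (i : Fin p) :
    Ideal.absNorm (Q i) = Ideal.absNorm v.asIdeal := by
  classical
  have hmax : v.asIdeal.IsMaximal := v.isMaximal
  have hmem : ∀ i, Q i ∈ IsDedekindDomain.primesOverFinset v.asIdeal (𝓞 E) := fun i =>
    (IsDedekindDomain.mem_primesOverFinset_iff v.ne_bot _).mpr ⟨hprime i, hover i⟩
  have hsum := Ideal.sum_ramification_inertia (𝓞 E) F E (p := v.asIdeal) v.ne_bot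
  rw [hfin] at hsum
  set T : Finset (Ideal (𝓞 E)) := Finset.univ.image Q with hT
  have hsub : T ⊆ IsDedekindDomain.primesOverFinset v.asIdeal (𝓞 E) := by
    intro P hP
    obtain ⟨j, _, rfl⟩ := Finset.mem_image.mp hP
    exact hmem j
  have hle : ∑ P ∈ T, v.asIdeal.ramificationIdx' P * v.asIdeal.inertiaDeg' P ≤ p := by
    calc ∑ P ∈ T, v.asIdeal.ramificationIdx' P * v.asIdeal.inertiaDeg' P
        ≤ ∑ P ∈ IsDedekindDomain.primesOverFinset v.asIdeal (𝓞 E),
          v.asIdeal.ramificationIdx' P * v.asIdeal.inertiaDeg' P :=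
          Finset.sum_le_sum_of_subset hsub
      _ = p := hsum
  rw [hT, Finset.sum_image (fun a _ b _ h => hinj h)] at hle
  have hge : ∀ j : Fin p, 1 ≤ v.asIdeal.ramificationIdx' (Q j) * v.asIdeal.inertiaDeg' (Q j) := by
    intro j
    have := hprime j
    have := hover j
    have e1 : v.asIdeal.ramificationIdx' (Q j) ≠ 0 :=
      Ideal.IsDedekindDomain.ramificationIdx'_ne_zero_of_liesOver (Q j) v.ne_bot
    have f1 : v.asIdeal.inertiaDeg' (Q j) ≠ 0 := Ideal.inertiaDeg'_ne_zero v.asIdeal (Q j)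
    exact Nat.one_le_iff_ne_zero.mpr (mul_ne_zero e1 f1)
  have heq : ∀ j ∈ (Finset.univ : Finset (Fin p)),
      1 = v.asIdeal.ramificationIdx' (Q j) * v.asIdeal.inertiaDeg' (Q j) := by
    apply (Finset.sum_eq_sum_iff_of_le (fun j _ => hge j)).mp
    apply le_antisymm
    · exact Finset.sum_le_sum (fun j _ => hge j)
    · refine hle.trans (le_of_eq ?_)
      simp
  have := hprime i
  have := hover i
  have hf : v.asIdeal.inertiaDeg' (Q i) = 1 :=
    Nat.eq_one_of_mul_eq_one_left (heq i (Finset.mem_univ i)).symm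
  rw [Ideal.absNorm_eq_pow_inertiaDeg'_of_liesOver (Q i) v.asIdeal v.isPrime v.ne_bot, hf, pow_one]

theorem one_sub_notMem {R : Type} [CommRing R] [IsDomain R] (p : ℕ) (hp : p.Prime) (ζ : R)
    (hζ : IsPrimitiveRoot ζ p) (P : Ideal R) (hpP : (p : R) ∉ P) (m : ℕ) (h0 : 0 < m)
    (hm : m < p) : 1 - ζ ^ m ∉ P := by
  intro h
  apply hpP
  have hcop : m.Coprime p := by
    rw [Nat.coprime_comm, hp.coprime_iff_not_dvd]
    exact Nat.not_dvd_of_pos_of_lt h0 hm
  have hζm : IsPrimitiveRoot (ζ ^ m) p := hζ.pow_of_coprime m hcop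
  have hs := hζm.geom_sum_eq_zero hp.one_lt
  have h1 : (p : R) = ∑ i ∈ Finset.range p, (1 - (ζ ^ m) ^ i) := by
    rw [Finset.sum_sub_distrib, hs, sub_zero, Finset.sum_const, Finset.card_range, nsmul_eq_mul,
      mul_one]
  rw [h1]
  apply Ideal.sum_mem
  intro i _
  obtain ⟨c, hc⟩ := sub_dvd_pow_sub_pow (1 : R) (ζ ^ m) i
  rw [one_pow] at hc
  rw [hc]
  exact P.mul_mem_right _ h

theorem sp_spl : SP_SPL := by
  intro p hpF F E _ _ _ _ _ ε x r hε hfin hr hx v hvp hvx
  have hp : p.Prime := hpF.out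
  have hFE : FiniteDimensional F E := by
    apply FiniteDimensional.of_finrank_pos
    rw [hfin]
    exact hp.pos
  obtain ⟨hG, g, hg⟩ := exists_sigma p hp ε x r hε hfin hr hx
  obtain ⟨y, hy⟩ := hvx
  have hval : v.valuation F (x * y ^ p) ≤ 1 := by
    have e : x * y ^ p = (x * y ^ p - 1) + 1 := by ring
    rw [e]
    refine le_trans (Valuation.map_add _ _ _) (max_le hy.le ?_)
    rw [map_one]
  obtain ⟨n, ⟨d, hd⟩, hnd⟩ := v.exists_primeCompl_mul_eq_of_integer (x * y ^ p) hval
  simp only at hnd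
  have hdv : d ∉ v.asIdeal := hd
  have hnd2 : n - d ∈ v.asIdeal := by
    rw [← v.valuation_lt_one_iff_mem (K := F)]
    have e : algebraMap (𝓞 F) F (n - d) = (x * y ^ p - 1) * algebraMap (𝓞 F) F d := by
      rw [map_sub, ← hnd]; ring
    change v.valuation F (algebraMap (𝓞 F) F (n - d)) < 1
    rw [e, map_mul]
    refine lt_of_le_of_lt (mul_le_mul' le_rfl (v.valuation_le_one d)) ?_
    rwa [mul_one]
  -- the integer `b = d r y`
  set z : E := algebraMap F E (algebraMap (𝓞 F) F d) * (r * algebraMap F E y) with hz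
  have hzp : z ^ p = algebraMap F E (algebraMap (𝓞 F) F (d ^ (p - 1) * n)) := by
    have hpp : p = p - 1 + 1 := (Nat.sub_add_cancel hp.one_le).symm
    have e : z ^ p = (algebraMap F E (algebraMap (𝓞 F) F d)) ^ (p - 1) *
        (algebraMap F E (algebraMap (𝓞 F) F d) * (r ^ p * algebraMap F E y ^ p)) := by
      rw [hz, mul_pow, mul_pow]
      conv_lhs => rw [hpp, pow_succ]
      rw [← hpp]
      ring
    rw [e, hr, map_mul, map_mul, ← hnd, map_mul, map_mul, map_pow, map_pow, map_pow]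
    ring
  have hzint : IsIntegral ℤ z := by
    refine IsIntegral.of_pow (n := p) hp.pos ?_
    rw [hzp]
    exact ((RingOfIntegers.isIntegral_coe (d ^ (p - 1) * n)).map
      ((algebraMap F E).toIntAlgHom))
  set b : 𝓞 E := ⟨z, hzint⟩ with hb
  set dE : 𝓞 E := algebraMap (𝓞 F) (𝓞 E) d with hdE
  have hdEc : (dE : E) = algebraMap F E (algebraMap (𝓞 F) F d) := by
    rw [hdE]; rfl
  have hεint : IsIntegral ℤ ε := hε.isIntegral hp.pos
  set εO : 𝓞 F := ⟨ε, hεint⟩ with hεO
  set ζ : 𝓞 E := algebraMap (𝓞 F) (𝓞 E) εO with hζ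
  have hζc : (ζ : E) = algebraMap F E ε := by
    rw [hζ]; rfl
  have hζp : IsPrimitiveRoot ζ p := by
    have h1 : IsPrimitiveRoot (algebraMap F E ε) p :=
      hε.map_of_injective (algebraMap F E).injective
    rw [← hζc] at h1
    exact h1.of_map_of_injective (f := algebraMap (𝓞 E) E) RingOfIntegers.coe_injective
  have hgb : g • b = ζ * b := by
    apply RingOfIntegers.ext
    show g z = (ζ : E) * z
    rw [hz, map_mul, map_mul, hg, g.commutes, g.commutes, hζc]
    ring
  have hgd : g • dE = dE := by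
    apply RingOfIntegers.ext
    show g (dE : E) = (dE : E)
    rw [hdEc, g.commutes]
  have hgζ : g • ζ = ζ := by
    apply RingOfIntegers.ext
    show g (ζ : E) = (ζ : E)
    rw [hζc, g.commutes]
  have hgbm : ∀ m : ℕ, (g ^ m) • b = ζ ^ m * b := by
    intro m
    induction m with
    | zero => simp
    | succ m ih =>
      rw [pow_succ', mul_smul, ih, smul_mul', smul_pow', hgζ, hgb]
      ring
  have hgdm : ∀ m : ℕ, (g ^ m) • dE = dE := by
    intro m
    induction m with
    | zero => simp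
    | succ m ih => rw [pow_succ', mul_smul, ih, hgd]
  have hgζm : ∀ m : ℕ, (g ^ m) • ζ = ζ := by
    intro m
    induction m with
    | zero => simp
    | succ m ih => rw [pow_succ', mul_smul, ih, hgζ]
  have hprod : ∏ i ∈ Finset.range p, (b - ζ ^ i * dE) =
      algebraMap (𝓞 F) (𝓞 E) (d ^ (p - 1) * (n - d)) := by
    have h1 := X_pow_sub_C_eq_prod hζp hp.pos (α := dE) (a := dE ^ p) rfl
    have h2 := congrArg (Polynomial.eval b) h1
    rw [eval_prod] at h2
    simp only [eval_sub, eval_pow, eval_X, eval_C] at h2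
    rw [← h2]
    apply RingOfIntegers.ext
    have e1 : ((b ^ p - dE ^ p : 𝓞 E) : E) = z ^ p - (dE : E) ^ p := rfl
    have e2 : ((algebraMap (𝓞 F) (𝓞 E) (d ^ (p - 1) * (n - d)) : 𝓞 E) : E) =
        algebraMap F E (algebraMap (𝓞 F) F (d ^ (p - 1) * (n - d))) := rfl
    rw [e1, e2, hzp, hdEc]
    have hpp : d ^ p = d ^ (p - 1) * d := by
      rw [← pow_succ, Nat.sub_add_cancel hp.one_le]
    rw [← map_pow, ← map_pow, hpp, ← map_sub, ← map_sub]
    congr 2
    ring
  -- a prime above `v`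
  obtain ⟨⟨P, hPp, hPo⟩⟩ := v.asIdeal.nonempty_primesOver (S := 𝓞 E)
  have hvp' : (p : 𝓞 F) ∉ v.asIdeal := by
    intro h
    rw [← v.valuation_lt_one_iff_mem (K := F)] at h
    change v.valuation F (algebraMap (𝓞 F) F p) < 1 at h
    rw [map_natCast, hvp] at h
    exact lt_irrefl _ h
  have hpP : ((p : ℕ) : 𝓞 E) ∉ P := by
    intro h
    apply hvp'
    rw [hPo.over]
    change algebraMap (𝓞 F) (𝓞 E) (p : 𝓞 F) ∈ P
    rw [map_natCast]
    exact h
  have hdP : dE ∉ P := by
    intro h
    apply hdv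
    rw [hPo.over]
    exact h
  have hprodP : ∏ i ∈ Finset.range p, (b - ζ ^ i * dE) ∈ P := by
    rw [hprod]
    have h : d ^ (p - 1) * (n - d) ∈ v.asIdeal := v.asIdeal.mul_mem_left _ hnd2
    rw [hPo.over] at h
    exact h
  obtain ⟨i, _, hi⟩ := (Ideal.IsPrime.prod_mem_iff (hp := hPp)).mp hprodP
  have hζunit : IsUnit ζ := hζp.isUnit hp.ne_zero
  have hne : ∀ m : ℕ, 0 < m → m < p → (g ^ m) • P ≠ P := by
    intro m h0 hm heq
    have h1 : (g ^ m) • (b - ζ ^ i * dE) ∈ (g ^ m) • P :=
      Ideal.smul_mem_pointwise_smul (g ^ m) _ P hi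
    rw [heq, smul_sub, smul_mul', smul_pow', hgbm, hgdm, hgζm] at h1
    have h2 : ζ ^ m * (b - ζ ^ i * dE) ∈ P := P.mul_mem_left _ hi
    have h3 : ζ ^ i * (dE * (1 - ζ ^ m)) ∈ P := by
      have e : ζ ^ i * (dE * (1 - ζ ^ m)) =
        ζ ^ m * (b - ζ ^ i * dE) - (ζ ^ m * b - ζ ^ i * dE) := by ring
      rw [e]
      exact P.sub_mem h2 h1
    rcases hPp.mem_or_mem h3 with h | h
    · exact hPp.ne_top (Ideal.eq_top_of_isUnit_mem _ h (hζunit.pow i))
    · rcases hPp.mem_or_mem h with h | h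
      · exact hdP h
      · exact one_sub_notMem p hp ζ hζp P hpP m h0 hm h
  have hinj' : ∀ i j : Fin p, i.1 < j.1 → (g ^ i.1) • P ≠ (g ^ j.1) • P := by
    intro i j hij heq
    apply hne (j.1 - i.1) (by omega) (by omega)
    have h1 : g ^ j.1 = g ^ i.1 * g ^ (j.1 - i.1) := by
      rw [← pow_add]
      congr 1
      omega
    rw [h1, mul_smul] at heq
    exact (smul_left_cancel _ heq).symm
  have hinj : Function.Injective (fun i : Fin p => (g ^ i.1) • P) := by
    intro i j hij
    rcases lt_trichotomy i.1 j.1 with h | h | h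
    · exact absurd hij (hinj' i j h)
    · exact Fin.ext h
    · exact absurd hij.symm (hinj' j i h)
  have hover : ∀ i : Fin p, ((g ^ i.1) • P).LiesOver v.asIdeal := fun i => inferInstance
  have hprime : ∀ i : Fin p, ((g ^ i.1) • P).IsPrime := fun i => inferInstance
  refine ⟨fun i => ⟨(g ^ i.1) • P, hprime i,
    Ideal.ne_bot_of_liesOver_of_ne_bot v.ne_bot ((g ^ i.1) • P)⟩, ?_, fun i => ⟨?_, ?_⟩⟩
  · intro i j hij
    exact hinj (congrArg HeightOneSpectrum.asIdeal hij)
  · exact (hover i).over.symm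
  · exact norm_part p hfin v (fun i : Fin p => (g ^ i.1) • P) hprime hover hinj i

end Pool.Agent.Helper84.RSP
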